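import Pool.Agent.K3h30.RS.Stm

/-!
# Rubin's conjecture: extension of homomorphisms
-/

set_option autoImplicit false

open NumberField IsDedekindDomain Filter Topology
open Pool.Agent.K3h30.RS

noncomputable section

namespace Pool.Agent.K3h12.RSE

/-- The elements of `ℚ / ℤ` killed by `m` are multiples of `1 / m`. -/
lemma torsion_form (m : ℕ) (hm : 0 < m) (z : QZ) (hz : m • z = 0) :
    ∃ k : ℤ, z = k • ((((m : ℚ)⁻¹ : ℚ)) : QZ) := by
  obtain ⟨q, rfl⟩ := QuotientAddGroup.mk_surjective z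
  have h1 : ((m • q : ℚ) : QZ) = 0 := by
    rw [← hz]; rfl
  rw [AddCircle.coe_eq_zero_iff] at h1
  obtain ⟨n, hn⟩ := h1
  refine ⟨n, ?_⟩
  have hm' : (m : ℚ) ≠ 0 := by positivity
  have h2 : q = n • ((m : ℚ)⁻¹) := by
    rw [zsmul_eq_mul] at hn ⊢
    rw [nsmul_eq_mul] at hn
    field_simp
    linarith
  rw [h2]
  rfl

/-- Homomorphisms of a torsion group to `ℚ / ℤ` which are trivial on the common kernel of some
characters are combinations of them. -/
lemma comb {A J : Type} [AddCommGroup A] [Fintype J] (m : ℕ) (hm : 0 < m)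
    (c : J → A →+ QZ) (hc : ∀ j a, m • c j a = 0) (x : A →+ QZ)
    (hx : ∀ a, (∀ j, c j a = 0) → x a = 0) :
    ∃ n : J → ℤ, ∀ a, x a = ∑ j, n j • c j a := by
  classical
  let Φ : A →+ (J → QZ) := AddMonoidHom.pi c
  have hker : Φ.ker ≤ x.ker := by
    intro a ha
    rw [AddMonoidHom.mem_ker] at ha ⊢
    exact hx a fun j => congrFun ha j
  obtain ⟨E, hE⟩ := (Module.Baer.of_divisible QZ).extension_property_addMonoidHom
    (QuotientAddGroup.kerLift Φ) (QuotientAddGroup.kerLift_injective Φ)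
    (QuotientAddGroup.lift Φ.ker x hker)
  have hEa : ∀ a, E (Φ a) = x a := by
    intro a
    have h1 := congrArg (fun f : A ⧸ Φ.ker →+ QZ => f (a : A ⧸ Φ.ker)) hE
    simpa using h1
  have hn : ∀ j, ∃ n : ℤ, E (Pi.single j (((m : ℚ)⁻¹ : ℚ) : QZ)) = n • (((m : ℚ)⁻¹ : ℚ) : QZ) := by
    intro j
    apply torsion_form m hm
    rw [← map_nsmul, ← Pi.single_smul]
    have h1 : m • (((m : ℚ)⁻¹ : ℚ) : QZ) = 0 := by
      have h2 : ((m • ((m : ℚ)⁻¹) : ℚ) : QZ) = 0 := by
        rw [AddCircle.coe_eq_zero_iff]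
        refine ⟨1, ?_⟩
        have hm' : (m : ℚ) ≠ 0 := by positivity
        rw [nsmul_eq_mul, mul_inv_cancel₀ hm', one_zsmul]
      exact h2
    rw [h1, Pi.single_zero, map_zero]
  choose n hn using hn
  refine ⟨n, fun a => ?_⟩
  rw [← hEa a, ← Finset.univ_sum_single (Φ a), map_sum]
  refine Finset.sum_congr rfl fun j _ => ?_
  obtain ⟨k, hk⟩ := torsion_form m hm (c j a) (hc j a)
  have h1 : Φ a j = c j a := rfl
  rw [h1, hk, Pi.single_smul, map_zsmul, hn, smul_comm]

/-- A homomorphism to `ℚ` with integral values. -/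
lemma integral {A : Type} [AddCommGroup A] (f : A →+ ℚ) (hf : ∀ a, ((f a : ℚ) : QZ) = 0) :
    ∃ y : A →+ ℤ, ∀ a, ((y a : ℤ) : ℚ) = f a := by
  have h1 : ∀ a, ∃ n : ℤ, (n : ℚ) = f a := by
    intro a
    obtain ⟨n, hn⟩ := (AddCircle.coe_eq_zero_iff (1 : ℚ)).1 (hf a)
    refine ⟨n, ?_⟩
    rw [← hn, zsmul_eq_mul, mul_one]
  choose y hy using h1
  refine ⟨{ toFun := y, map_zero' := ?_, map_add' := ?_ }, hy⟩
  · have := hy 0
    rw [map_zero] at this
    exact_mod_cast this
  · intro a b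
    have := hy (a + b)
    rw [map_add, ← hy a, ← hy b] at this
    exact_mod_cast this

/-- The homomorphism to `ℤ[G]` given by its coefficient at `1`. -/
def toG {G A : Type} [CommGroup G] [Fintype G] [AddCommGroup A] [DistribMulAction G A]
    (y0 : A →+ ℤ) : A →+ MonoidAlgebra ℤ G where
  toFun a := ∑ γ : G, MonoidAlgebra.single γ (y0 (γ⁻¹ • a))
  map_zero' := by simp
  map_add' a b := by
    rw [← Finset.sum_add_distrib]
    refine Finset.sum_congr rfl fun γ _ => ?_
    rw [smul_add, map_add, MonoidAlgebra.single_add]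

lemma coeff_toG {G A : Type} [CommGroup G] [Fintype G] [AddCommGroup A] [DistribMulAction G A]
    (y0 : A →+ ℤ) (a : A) (g : G) : (toG (G := G) y0 a).coeff g = y0 (g⁻¹ • a) := by
  classical
  change (∑ γ : G, MonoidAlgebra.single γ (y0 (γ⁻¹ • a)) : MonoidAlgebra ℤ G).coeff g = _
  rw [MonoidAlgebra.coeff_sum, Finsupp.finsetSum_apply]
  rw [Finset.sum_eq_single g]
  · simp
  · intro b _ hb
    rw [MonoidAlgebra.coeff_single, Finsupp.single_apply, if_neg hb]
  · intro h
    exact absurd (Finset.mem_univ g) h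

/-- **Extension of `G`-homomorphisms.** -/
theorem t_EXT : S_EXT := by
  classical
  intro G A I _ _ _ _ _ w m hm χ hχ Λ hΛ1 hΛ2 B hB ψ hψ
  let _ := Fintype.ofFinite G
  have hm' : (m : ℚ) ≠ 0 := by positivity
  have hmB : ∀ a : A, m • a ∈ B := by
    intro a
    rw [hB]
    intro t γ
    have h1 : γ • (m • a) = m • (γ • a) := map_nsmul (DistribSMul.toAddMonoidHom A γ) m a
    rw [h1, map_nsmul]
    exact hχ t _
  -- the coefficient at `1`
  let x0 : B →+ ℤ :=
    { toFun := fun b => (ψ b).coeff 1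
      map_zero' := by simp
      map_add' := fun a b => by simp }
  let mul_m : A →+ B :=
    { toFun := fun a => ⟨m • a, hmB a⟩
      map_zero' := by simp
      map_add' := fun a b => by
        apply Subtype.ext
        simp }
  let xq : A →+ ℚ :=
    { toFun := fun a => (x0 (mul_m a) : ℚ) / m
      map_zero' := by simp
      map_add' := fun a b => by
        rw [map_add, map_add]
        push_cast
        ring }
  have hxq : ∀ b : B, xq b = x0 b := by
    intro b
    have h1 : mul_m (b : A) = m • b := rfl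
    change (x0 (mul_m b) : ℚ) / m = _
    rw [h1, map_nsmul, nsmul_eq_mul]
    push_cast
    field_simp
  -- the combination of characters
  obtain ⟨n, hn⟩ := comb (J := I × G) m hm
    (fun j => (χ j.1).comp (DistribSMul.toAddMonoidHom A j.2))
    (fun j a => hχ j.1 _) ((QuotientAddGroup.mk' _).comp xq) (by
      intro a ha
      have hb : a ∈ B := (hB a).2 fun t γ => ha (t, γ)
      have h1 := hxq ⟨a, hb⟩
      change ((xq a : ℚ) : QZ) = 0
      rw [h1, AddCircle.coe_eq_zero_iff]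
      exact ⟨x0 ⟨a, hb⟩, by rw [zsmul_eq_mul, mul_one]⟩)
  -- the integral part
  let f : A →+ ℚ :=
    { toFun := fun a => w * xq a - ∑ j : I × G, (n j : ℚ) * (Λ j.1 a).coeff j.2⁻¹
      map_zero' := by simp
      map_add' := fun a b => by
        simp only [map_add, MonoidAlgebra.coeff_add, Finsupp.add_apply, mul_add,
          Finset.sum_add_distrib]
        ring }
  obtain ⟨y0, hy0⟩ := integral f (by
    intro a
    have h1 : ((xq a : ℚ) : QZ) = ∑ j : I × G, n j • χ j.1 (j.2 • a) := hn a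
    have h2 : ((f a : ℚ) : QZ) = w • ((xq a : ℚ) : QZ) -
        ∑ j : I × G, n j • (((Λ j.1 a).coeff j.2⁻¹ : ℚ) : QZ) := by
      have e1 : f a = w • xq a - ∑ j : I × G, n j • (Λ j.1 a).coeff j.2⁻¹ := by
        change (w : ℚ) * xq a - ∑ j : I × G, (n j : ℚ) * (Λ j.1 a).coeff j.2⁻¹ = _
        simp only [nsmul_eq_mul, zsmul_eq_mul]
      rw [e1, AddCircle.coe_sub, AddCircle.coe_nsmul]
      congr 1
      rw [← QuotientAddGroup.mk'_apply, map_sum]
      rfl
    rw [h2, h1, Finset.smul_sum, sub_eq_zero]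
    refine Finset.sum_congr rfl fun j _ => ?_
    rw [hΛ2, inv_inv, smul_comm])
  refine ⟨toG y0, fun t => ∑ γ : G, MonoidAlgebra.single γ (n (t, γ)), ?_, ?_⟩
  · intro γ x
    ext g
    rw [MonoidAlgebra.coeff_single_mul_apply, coeff_toG, coeff_toG, one_mul, smul_smul, mul_inv_rev,
      inv_inv, mul_comm]
  · intro b
    ext g
    have hmem : g⁻¹ • (b : A) ∈ B := by
      rw [hB]
      intro t γ
      rw [smul_smul]
      exact (hB b).1 b.2 t (γ * g⁻¹)
    have e1 : ((ψ b).coeff g : ℤ) = x0 ⟨g⁻¹ • (b : A), hmem⟩ := by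
      change _ = (ψ ⟨g⁻¹ • (b : A), hmem⟩).coeff 1
      rw [hψ g⁻¹ b ⟨g⁻¹ • (b : A), hmem⟩ rfl, MonoidAlgebra.coeff_single_mul_apply, one_mul,
        inv_inv, mul_one]
    have e2 : (((ψ b).coeff g : ℤ) : ℚ) = xq (g⁻¹ • (b : A)) := by
      rw [e1]
      exact (hxq ⟨g⁻¹ • (b : A), hmem⟩).symm
    have e3 : (((toG (G := G) y0 (b : A)).coeff g : ℤ) : ℚ) = w * xq (g⁻¹ • (b : A)) -
        ∑ j : I × G, (n j : ℚ) * (Λ j.1 (b : A)).coeff (j.2⁻¹ * g) := by
      rw [coeff_toG, hy0]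
      change (w : ℚ) * xq (g⁻¹ • (b : A)) - ∑ j : I × G, (n j : ℚ) *
        (Λ j.1 (g⁻¹ • (b : A))).coeff j.2⁻¹ = _
      congr 1
      refine Finset.sum_congr rfl fun j _ => ?_
      rw [hΛ1, MonoidAlgebra.coeff_single_mul_apply, one_mul, inv_inv, mul_comm g]
    have e4 : (∑ t, toQ (∑ γ : G, MonoidAlgebra.single γ (n (t, γ))) * Λ t (b : A)).coeff g =
        ∑ j : I × G, (n j : ℚ) * (Λ j.1 (b : A)).coeff (j.2⁻¹ * g) := by
      rw [MonoidAlgebra.coeff_sum, Finsupp.finsetSum_apply, Fintype.sum_prod_type]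
      refine Finset.sum_congr rfl fun t _ => ?_
      rw [map_sum, Finset.sum_mul, MonoidAlgebra.coeff_sum, Finsupp.finsetSum_apply]
      refine Finset.sum_congr rfl fun γ _ => ?_
      rw [toQ, MonoidAlgebra.mapRingHom_single, MonoidAlgebra.coeff_single_mul_apply]
      rfl
    rw [← nsmul_eq_mul, MonoidAlgebra.coeff_smul, Finsupp.smul_apply, MonoidAlgebra.coeff_add,
      Finsupp.add_apply, e4]
    have e5 : (toQ (ψ b)).coeff g = (((ψ b).coeff g : ℤ) : ℚ) :=
      MonoidAlgebra.coeff_mapRingHom _ _ _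
    have e6 : (toQ (toG (G := G) y0 (b : A))).coeff g =
        (((toG (G := G) y0 (b : A)).coeff g : ℤ) : ℚ) := MonoidAlgebra.coeff_mapRingHom _ _ _
    rw [e5, e6, e2, e3, nsmul_eq_mul]
    ring

end Pool.Agent.K3h12.RSE
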